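import Mathlib

/-!
# Polynomial identities of nonassociative algebras

`IsIdentity K A f`: the element `f` of the free nonassociative `K`-algebra on `x₀, x₁, …` vanishes
under every substitution of elements of `A`; `Follows K S f`: the identity `f = 0` follows from the
identities `S`; `InfinitelyBased K A`: no finite set of identities of `A` implies all of them.
-/

set_option autoImplicit false

namespace Pool.Agent.R650.ThreeDim

universe u

/-- `f = 0` is a polynomial identity of the (not necessarily associative) `K`-algebra `A`. -/
def IsIdentity (K A : Type u) [Field K] [NonUnitalNonAssocRing A] [Module K A]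
    [IsScalarTower K A A] [SMulCommClass K A A] (f : FreeNonUnitalNonAssocAlgebra K ℕ) : Prop :=
  ∀ v : ℕ → A, FreeNonUnitalNonAssocAlgebra.lift K v f = 0

/-- The identity `f = 0` follows from the set `S` of identities: every `K`-algebra satisfying all
identities in `S` satisfies `f = 0`. -/
def Follows (K : Type u) [Field K] (S : Set (FreeNonUnitalNonAssocAlgebra K ℕ))
    (f : FreeNonUnitalNonAssocAlgebra K ℕ) : Prop :=
  ∀ (A : Type u) [NonUnitalNonAssocRing A] [Module K A] [IsScalarTower K A A]
    [SMulCommClass K A A], (∀ g ∈ S, IsIdentity K A g) → IsIdentity K A f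

/-- `A` is infinitely based: there is no finite set of identities of `A` from which all
identities of `A` follow. -/
def InfinitelyBased (K A : Type u) [Field K] [NonUnitalNonAssocRing A] [Module K A]
    [IsScalarTower K A A] [SMulCommClass K A A] : Prop :=
  ¬ ∃ S : Set (FreeNonUnitalNonAssocAlgebra K ℕ), S.Finite ∧ (∀ g ∈ S, IsIdentity K A g) ∧
    ∀ f, IsIdentity K A f → Follows K S f

end Pool.Agent.R650.ThreeDim
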