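import Pool.Agent.R650.ThreeDim.Main

set_option autoImplicit false
set_option linter.unusedSectionVars false

namespace Pool.Agent.R650.ThreeDim

universe u

noncomputable section

open Polynomial

variable {K : Type u} [Field K]

/-- The variable `x_i`. -/
def xx (K : Type u) [Field K] (i : ℕ) : FreeNonUnitalNonAssocAlgebra K ℕ :=
  FreeNonUnitalNonAssocAlgebra.of K i

/-- `x₀[x₁,x₂]x₃ ⋯ x₃` (left normed, `n` factors `x₃`). -/
def hh (K : Type u) [Field K] : ℕ → FreeNonUnitalNonAssocAlgebra K ℕ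
  | 0 => (xx K 0 * xx K 1) * xx K 2 - (xx K 0 * xx K 2) * xx K 1
  | n + 1 => hh K n * xx K 3

/-- `x₀[x₁,x₂]x₃ ⋯ x₃[x₄,x₅]`. -/
def fam (K : Type u) [Field K] (n : ℕ) : FreeNonUnitalNonAssocAlgebra K ℕ :=
  (hh K n * xx K 4) * xx K 5 - (hh K n * xx K 5) * xx K 4

theorem fam_identity (n : ℕ) : IsIdentity K (Tri K) (fam K n) := by
  intro v
  have hp : ∀ n, (FreeNonUnitalNonAssocAlgebra.lift K v (hh K n)).1 = 0 := by
    intro n
    induction n with
    | zero =>
      simp only [hh, xx, map_sub, map_mul, FreeNonUnitalNonAssocAlgebra.lift_of_apply,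
        Tri.sub_p, Tri.mul_p]
      ring
    | succ n ih => simp only [hh, map_mul, Tri.mul_p, ih, zero_mul]
  simp only [fam, map_sub, map_mul]
  refine Tri.ext' ?_ ?_ ?_
  · simp [hp]
  · simp only [Tri.sub_m, Tri.mul_m, Tri.mul_p, hp, zero_mul, zero_add, Tri.zero_m]
    ring
  · simp

/-- The substitution `a, a, b, a, a, b`. -/
def sb (M : ℕ) (n : ℕ) : Bn K M :=
  if n = 2 ∨ n = 5 then Bn.mk M 0 1 0 0 else Bn.mk M 1 0 0 0

theorem fam_not (n : ℕ) : ¬ IsIdentity K (Bn K (n + 3)) (fam K n) := by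
  intro h
  have hv := h (sb (n + 3))
  have hc : ∀ m, (FreeNonUnitalNonAssocAlgebra.lift K (sb (K := K) (n + 3)) (hh K m)).2.2.1 =
      - X ^ (m + 2) := by
    intro m
    induction m with
    | zero =>
      simp [hh, xx, sb]
      ring
    | succ m ih =>
      simp [hh, xx, sb, ih]
      ring
  have hz := congrArg (fun t : Bn K (n + 3) => t.2.2.2) hv
  simp [fam, xx, sb, hc, coeff_X_pow] at hz

theorem exists_bound (S : Set (FreeNonUnitalNonAssocAlgebra K ℕ)) (hS : S.Finite) :
    ∃ D : ℕ, ∀ g ∈ S, ∀ w ∈ g.coeff.support, w.length ≤ D := by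
  classical
  refine ⟨(hS.toFinset.biUnion fun g => g.coeff.support).sup FreeMagma.length, ?_⟩
  intro g hg w hw
  exact Finset.le_sup (f := FreeMagma.length)
    (Finset.mem_biUnion.2 ⟨g, hS.mem_toFinset.2 hg, hw⟩)

theorem tri_infinitelyBased (K : Type u) [Field K] [Infinite K] : InfinitelyBased K (Tri K) := by
  rintro ⟨S, hS, hid, hall⟩
  obtain ⟨D, hD⟩ := exists_bound S hS
  refine fam_not (K := K) D (hall _ (fam_identity D) (Bn K (D + 3)) fun g hg => ?_)
  exact bn_identity _ g (hid g hg) fun w hw => (hD g hg w hw).trans (by omega)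

theorem tri_finrank (K : Type u) [Field K] : Module.finrank K (Tri K) = 3 := by
  have : Module.finrank K (K × K × K) = 3 := by
    rw [Module.finrank_prod, Module.finrank_prod, Module.finrank_self]
  exact this

end

end Pool.Agent.R650.ThreeDim
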