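import Pool.Agent.R650.ThreeDim.Defs

set_option autoImplicit false
set_option linter.unusedSectionVars false

namespace Pool.Agent.R650.ThreeDim

universe u

noncomputable section

open Polynomial

/-! ### The algebra `R ⊗ C` -/

/-- Triples `(p, m, l)` over a commutative ring with the product
`(p, m, l) (p', m', l') = (p l', (p + m) m', 0)`. -/
def Tri (C : Type u) : Type u := C × C × C

namespace Tri

/-- The triple with given coordinates. -/
def mk {C : Type u} (p m l : C) : Tri C := (p, m, l)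

variable {C : Type u}

@[simp] theorem mk_p (p m l : C) : (mk p m l).1 = p := rfl
@[simp] theorem mk_m (p m l : C) : (mk p m l).2.1 = m := rfl
@[simp] theorem mk_l (p m l : C) : (mk p m l).2.2 = l := rfl

theorem ext' {x y : Tri C} (h1 : x.1 = y.1) (h2 : x.2.1 = y.2.1) (h3 : x.2.2 = y.2.2) : x = y :=
  Prod.ext h1 (Prod.ext h2 h3)

variable [CommRing C]

instance : AddCommGroup (Tri C) := inferInstanceAs (AddCommGroup (C × C × C))

instance {K : Type u} [CommRing K] [Algebra K C] : Module K (Tri C) :=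
  inferInstanceAs (Module K (C × C × C))

instance : Mul (Tri C) := ⟨fun x y => mk (x.1 * y.2.2) ((x.1 + x.2.1) * y.2.1) 0⟩

@[simp] theorem mul_p (x y : Tri C) : (x * y).1 = x.1 * y.2.2 := rfl
@[simp] theorem mul_m (x y : Tri C) : (x * y).2.1 = (x.1 + x.2.1) * y.2.1 := rfl
@[simp] theorem mul_l (x y : Tri C) : (x * y).2.2 = 0 := rfl
@[simp] theorem add_p (x y : Tri C) : (x + y).1 = x.1 + y.1 := rfl
@[simp] theorem add_m (x y : Tri C) : (x + y).2.1 = x.2.1 + y.2.1 := rfl
@[simp] theorem add_l (x y : Tri C) : (x + y).2.2 = x.2.2 + y.2.2 := rfl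
@[simp] theorem sub_p (x y : Tri C) : (x - y).1 = x.1 - y.1 := rfl
@[simp] theorem sub_m (x y : Tri C) : (x - y).2.1 = x.2.1 - y.2.1 := rfl
@[simp] theorem sub_l (x y : Tri C) : (x - y).2.2 = x.2.2 - y.2.2 := rfl
@[simp] theorem zero_p : (0 : Tri C).1 = 0 := rfl
@[simp] theorem zero_m : (0 : Tri C).2.1 = 0 := rfl
@[simp] theorem zero_l : (0 : Tri C).2.2 = 0 := rfl

instance : NonUnitalNonAssocRing (Tri C) where
  left_distrib x y z := ext' (by simp; ring) (by simp; ring) (by simp)
  right_distrib x y z := ext' (by simp; ring) (by simp; ring) (by simp)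
  zero_mul x := ext' (by simp) (by simp) (by simp)
  mul_zero x := ext' (by simp) (by simp) (by simp)

variable {K : Type u} [CommRing K] [Algebra K C]

@[simp] theorem smul_p (k : K) (x : Tri C) : (k • x).1 = k • x.1 := rfl
@[simp] theorem smul_m (k : K) (x : Tri C) : (k • x).2.1 = k • x.2.1 := rfl
@[simp] theorem smul_l (k : K) (x : Tri C) : (k • x).2.2 = k • x.2.2 := rfl

instance : IsScalarTower K (Tri C) (Tri C) where
  smul_assoc k x y := ext' (by simp) (by simp [← smul_add]) (by simp)

instance : SMulCommClass K (Tri C) (Tri C) where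
  smul_comm k x y := ext' (by simp) (by simp) (by simp)

/-- Change of coefficients. -/
def map {D : Type u} [CommRing D] [Algebra K D] (φ : C →ₐ[K] D) : Tri C →ₙₐ[K] Tri D where
  toFun x := mk (φ x.1) (φ x.2.1) (φ x.2.2)
  map_smul' k x := ext' (by simp) (by simp) (by simp)
  map_zero' := ext' (by simp) (by simp) (by simp)
  map_add' x y := ext' (by simp) (by simp) (by simp)
  map_mul' x y := ext' (by simp) (by simp) (by simp)

theorem map_apply {D : Type u} [CommRing D] [Algebra K D] (φ : C →ₐ[K] D) (x : Tri C) :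
    map φ x = mk (φ x.1) (φ x.2.1) (φ x.2.2) := rfl

end Tri

theorem lift_map (K C D : Type u) [Field K] [CommRing C] [Algebra K C] [CommRing D] [Algebra K D]
    (φ : C →ₐ[K] D) (v : ℕ → Tri C) (f : FreeNonUnitalNonAssocAlgebra K ℕ) :
    Tri.map φ (FreeNonUnitalNonAssocAlgebra.lift K v f) =
      FreeNonUnitalNonAssocAlgebra.lift K (fun n => Tri.map φ (v n)) f := by
  have : (Tri.map φ).comp (FreeNonUnitalNonAssocAlgebra.lift K v) =
      FreeNonUnitalNonAssocAlgebra.lift K (fun n => Tri.map φ (v n)) := by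
    apply FreeNonUnitalNonAssocAlgebra.hom_ext
    intro x
    simp
  rw [← this]
  rfl

/-- Over an infinite field the identities of `R` hold in `R ⊗ D`. -/
theorem identity_ext (K D : Type u) [Field K] [Infinite K] [CommRing D] [Algebra K D]
    (f : FreeNonUnitalNonAssocAlgebra K ℕ) (hf : IsIdentity K (Tri K) f) (v : ℕ → Tri D) :
    FreeNonUnitalNonAssocAlgebra.lift K v f = 0 := by
  let gen : ℕ → Tri (MvPolynomial (ℕ × Fin 3) K) := fun n =>
    Tri.mk (MvPolynomial.X (n, 0)) (MvPolynomial.X (n, 1)) (MvPolynomial.X (n, 2))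
  have hG : FreeNonUnitalNonAssocAlgebra.lift K gen f = 0 := by
    have key : ∀ x : ℕ × Fin 3 → K,
        Tri.map (MvPolynomial.aeval x) (FreeNonUnitalNonAssocAlgebra.lift K gen f) = 0 := by
      intro x
      rw [lift_map]
      exact hf _
    refine Tri.ext' ?_ ?_ ?_
    · apply MvPolynomial.funext
      intro x
      have := congrArg (fun t : Tri K => t.1) (key x)
      simpa [Tri.map_apply, MvPolynomial.aeval_eq_eval] using this
    · apply MvPolynomial.funext
      intro x
      have := congrArg (fun t : Tri K => t.2.1) (key x)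
      simpa [Tri.map_apply, MvPolynomial.aeval_eq_eval] using this
    · apply MvPolynomial.funext
      intro x
      have := congrArg (fun t : Tri K => t.2.2) (key x)
      simpa [Tri.map_apply, MvPolynomial.aeval_eq_eval] using this
  let φ : MvPolynomial (ℕ × Fin 3) K →ₐ[K] D :=
    MvPolynomial.aeval (fun q => ![(v q.1).1, (v q.1).2.1, (v q.1).2.2] q.2)
  have h := lift_map K _ D φ gen f
  rw [hG, map_zero] at h
  have hv : (fun n => Tri.map φ (gen n)) = v := by
    funext n
    refine Tri.ext' ?_ ?_ ?_ <;> simp [Tri.map_apply, φ, gen]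
  rw [hv] at h
  exact h.symm

/-! ### The algebra `B` -/

/-- `B = K a ⊕ K b ⊕ ⨁ K c_i ⊕ K z`, `c_i ↔ X ^ i`, with `a b = c_1`, `c_i a = c_{i+1}`,
`c_M b = z`. -/
def Bn (K : Type u) [Field K] (_M : ℕ) : Type u := K × K × K[X] × K

namespace Bn

variable {K : Type u} [Field K] {M : ℕ}

/-- The element with given coordinates. -/
def mk (M : ℕ) (a b : K) (c : K[X]) (z : K) : Bn K M := (a, b, c, z)

@[simp] theorem mk_a (a b : K) (c : K[X]) (z : K) : (mk M a b c z).1 = a := rfl
@[simp] theorem mk_b (a b : K) (c : K[X]) (z : K) : (mk M a b c z).2.1 = b := rfl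
@[simp] theorem mk_c (a b : K) (c : K[X]) (z : K) : (mk M a b c z).2.2.1 = c := rfl
@[simp] theorem mk_z (a b : K) (c : K[X]) (z : K) : (mk M a b c z).2.2.2 = z := rfl

theorem ext' {x y : Bn K M} (h1 : x.1 = y.1) (h2 : x.2.1 = y.2.1) (h3 : x.2.2.1 = y.2.2.1)
    (h4 : x.2.2.2 = y.2.2.2) : x = y :=
  Prod.ext h1 (Prod.ext h2 (Prod.ext h3 h4))

instance : AddCommGroup (Bn K M) := inferInstanceAs (AddCommGroup (K × K × K[X] × K))

instance : Module K (Bn K M) := inferInstanceAs (Module K (K × K × K[X] × K))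

instance : Mul (Bn K M) := ⟨fun x y =>
  mk M 0 0 (C (x.1 * y.2.1) * X + x.2.2.1 * (C y.1 * X)) (x.2.2.1.coeff M * y.2.1)⟩

@[simp] theorem mul_a (x y : Bn K M) : (x * y).1 = 0 := rfl
@[simp] theorem mul_b (x y : Bn K M) : (x * y).2.1 = 0 := rfl
@[simp] theorem mul_c (x y : Bn K M) :
  (x * y).2.2.1 = C (x.1 * y.2.1) * X + x.2.2.1 * (C y.1 * X) := rfl
@[simp] theorem mul_z (x y : Bn K M) : (x * y).2.2.2 = x.2.2.1.coeff M * y.2.1 := rfl
@[simp] theorem add_a (x y : Bn K M) : (x + y).1 = x.1 + y.1 := rfl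
@[simp] theorem add_b (x y : Bn K M) : (x + y).2.1 = x.2.1 + y.2.1 := rfl
@[simp] theorem add_c (x y : Bn K M) : (x + y).2.2.1 = x.2.2.1 + y.2.2.1 := rfl
@[simp] theorem add_z (x y : Bn K M) : (x + y).2.2.2 = x.2.2.2 + y.2.2.2 := rfl
@[simp] theorem sub_a (x y : Bn K M) : (x - y).1 = x.1 - y.1 := rfl
@[simp] theorem sub_b (x y : Bn K M) : (x - y).2.1 = x.2.1 - y.2.1 := rfl
@[simp] theorem sub_c (x y : Bn K M) : (x - y).2.2.1 = x.2.2.1 - y.2.2.1 := rfl
@[simp] theorem sub_z (x y : Bn K M) : (x - y).2.2.2 = x.2.2.2 - y.2.2.2 := rfl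
@[simp] theorem zero_a : (0 : Bn K M).1 = 0 := rfl
@[simp] theorem zero_b : (0 : Bn K M).2.1 = 0 := rfl
@[simp] theorem zero_c : (0 : Bn K M).2.2.1 = 0 := rfl
@[simp] theorem zero_z : (0 : Bn K M).2.2.2 = 0 := rfl
@[simp] theorem smul_a (k : K) (x : Bn K M) : (k • x).1 = k * x.1 := rfl
@[simp] theorem smul_b (k : K) (x : Bn K M) : (k • x).2.1 = k * x.2.1 := rfl
@[simp] theorem smul_c (k : K) (x : Bn K M) : (k • x).2.2.1 = k • x.2.2.1 := rfl
@[simp] theorem smul_z (k : K) (x : Bn K M) : (k • x).2.2.2 = k * x.2.2.2 := rfl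

instance : NonUnitalNonAssocRing (Bn K M) where
  left_distrib x y z := ext' (by simp) (by simp) (by simp; ring) (by simp; ring)
  right_distrib x y z := ext' (by simp) (by simp) (by simp; ring) (by simp; ring)
  zero_mul x := ext' (by simp) (by simp) (by simp) (by simp)
  mul_zero x := ext' (by simp) (by simp) (by simp) (by simp)

instance : IsScalarTower K (Bn K M) (Bn K M) where
  smul_assoc k x y := ext' (by simp) (by simp)
    (by simp [smul_eq_C_mul]; ring) (by simp; ring)

instance : SMulCommClass K (Bn K M) (Bn K M) where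
  smul_comm k x y := ext' (by simp) (by simp)
    (by simp [smul_eq_C_mul]; ring) (by simp; ring)

end Bn

theorem lift_eq_sum {K A : Type u} [Field K] [NonUnitalNonAssocRing A] [Module K A]
    [IsScalarTower K A A] [SMulCommClass K A A] (v : ℕ → A) (f : FreeNonUnitalNonAssocAlgebra K ℕ) :
    FreeNonUnitalNonAssocAlgebra.lift K v f =
      f.coeff.sum (fun w k => k • FreeMagma.lift v w) := rfl

theorem transfer {K A B D : Type u} [Field K] [NonUnitalNonAssocRing A] [Module K A]
    [IsScalarTower K A A] [SMulCommClass K A A] [NonUnitalNonAssocRing B] [Module K B]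
    [IsScalarTower K B B] [SMulCommClass K B B] [AddCommGroup D] [Module K D]
    (v : ℕ → A) (r : ℕ → B) (L₁ : A →ₗ[K] D) (L₂ : B →ₗ[K] D)
    (f : FreeNonUnitalNonAssocAlgebra K ℕ)
    (h : ∀ w ∈ f.coeff.support, L₁ (FreeMagma.lift v w) = L₂ (FreeMagma.lift r w)) :
    L₁ (FreeNonUnitalNonAssocAlgebra.lift K v f) = L₂ (FreeNonUnitalNonAssocAlgebra.lift K r f) := by
  rw [lift_eq_sum, lift_eq_sum, Finsupp.sum, Finsupp.sum, map_sum, map_sum]
  refine Finset.sum_congr rfl fun w hw => ?_
  rw [map_smul, map_smul, h w hw]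

/-! ### First evaluation -/

section first

variable {K : Type u} [Field K] {M : ℕ}

open DualNumber TrivSqZeroExt

/-- Polynomials as dual numbers. -/
def io : K[X] →+* DualNumber K[X] := algebraMap K[X] (DualNumber K[X])

theorem io_smul (k : K) (q : K[X]) : (io (k • q) : DualNumber K[X]) = k • io q := by
  simp [io, algebraMap_eq_inl]

theorem eps_io (q : K[X]) (h : (ε : DualNumber K[X]) * io q = 0) : q = 0 := by
  have := congrArg TrivSqZeroExt.snd h
  simpa [io, algebraMap_eq_inl] using this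

/-- The first evaluation. -/
def r1 (v : ℕ → Bn K M) (n : ℕ) : Tri (DualNumber K[X]) :=
  Tri.mk (-(io (C (v n).1 * X))) (io (C (v n).1 * X) - ε * io (v n).2.2.1)
    (ε * io (C (v n).2.1))

theorem words1 (v : ℕ → Bn K M) (w : FreeMagma ℕ) :
    (FreeMagma.lift (r1 v) w).2.2 = ε * io (C (FreeMagma.lift v w).2.1) ∧
    (FreeMagma.lift (r1 v) w).1 + (FreeMagma.lift (r1 v) w).2.1 =
      -(ε * io (FreeMagma.lift v w).2.2.1) ∧
    ε * (FreeMagma.lift (r1 v) w).1 = -(ε * io (C (FreeMagma.lift v w).1 * X)) := by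
  have he : (ε : DualNumber K[X]) * ε = 0 := DualNumber.eps_mul_eps
  induction w using FreeMagma.recOnMul
  · simp [r1]
    ring
  · rename_i x y hx hy
    obtain ⟨x1, x2, x3⟩ := hx
    obtain ⟨y1, y2, y3⟩ := hy
    simp only [map_mul, Tri.mul_l, Tri.mul_m, Tri.mul_p, Bn.mul_a, Bn.mul_b, Bn.mul_c]
    set T := FreeMagma.lift (r1 v) x
    set U := FreeMagma.lift (r1 v) y
    set A := FreeMagma.lift v x
    set B := FreeMagma.lift v y
    refine ⟨by simp, ?_, ?_⟩
    · rw [x2, y1]
      have hU : ε * U.2.1 = ε * io (C B.1 * X) := by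
        have h1 : ε * (U.1 + U.2.1) = 0 := by
          rw [y2]
          linear_combination (-(io B.2.2.1)) * he
        linear_combination h1 - y3
      simp only [map_add, map_mul] at *
      linear_combination (io (C B.2.1)) * x3 - (io A.2.2.1) * hU
    · rw [y1]
      simp only [map_zero, zero_mul, mul_zero, neg_zero]
      linear_combination (T.1 * io (C B.2.1)) * he

end first

/-! ### Second evaluation -/

theorem aux1 {D : Type u} [CommRing D] (s t q n b z : D) (hs : s * s = 0) (ht : t * t = 0) :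
    (s * q + t * n) * (t * b + s * t * z) = s * t * (q * b) := by
  linear_combination (q * t * z) * hs + (n * b + n * s * z) * ht

theorem aux2 {D : Type u} [CommRing D] (s t q n m : D) (hs : s * s = 0) (ht : t * t = 0) :
    (s * q + t * n) * (s * t * m) = 0 := by
  linear_combination (q * t * m) * hs + (n * s * m) * ht

theorem aux3 {D : Type u} [CommRing D] (s t q n m : D) (ht : t * t = 0) :
    (s * q + t * n) * (t * m) = s * t * (q * m) := by
  linear_combination (n * m) * ht

section second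

variable {K : Type u} [Field K] {M : ℕ}

open DualNumber TrivSqZeroExt

/-- Polynomials as iterated dual numbers. -/
def jo : K[X] →+* DualNumber (DualNumber K[X]) :=
  (algebraMap (DualNumber K[X]) (DualNumber (DualNumber K[X]))).comp io

/-- The inner infinitesimal. -/
def sg : DualNumber (DualNumber K[X]) :=
  algebraMap (DualNumber K[X]) (DualNumber (DualNumber K[X])) ε

/-- The outer infinitesimal. -/
def ta : DualNumber (DualNumber K[X]) := ε

theorem sg_sg : (sg : DualNumber (DualNumber K[X])) * sg = 0 := by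
  rw [sg, ← map_mul, DualNumber.eps_mul_eps, map_zero]

theorem ta_ta : (ta : DualNumber (DualNumber K[X])) * ta = 0 := DualNumber.eps_mul_eps

/-- Extraction of the coefficient of `σ t X ^ M`. -/
def cf (M : ℕ) : DualNumber (DualNumber K[X]) →ₗ[K] K where
  toFun x := (TrivSqZeroExt.snd (TrivSqZeroExt.snd x)).coeff M
  map_add' x y := by simp
  map_smul' k x := by simp

theorem cf_apply (q : K[X]) : cf M (sg * ta * jo q) = q.coeff M := by
  simp [cf, sg, ta, jo, io, algebraMap_eq_inl]

theorem cf_apply' (q : K[X]) : cf M (ta * jo q) = 0 := by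
  simp [cf, ta, jo, io, algebraMap_eq_inl]

theorem jo_smul (k : K) (q : K[X]) :
    (jo (k • q) : DualNumber (DualNumber K[X])) = k • jo q := by
  simp [jo, io, algebraMap_eq_inl]

theorem jo_inj (q : K[X]) (h : (jo q : DualNumber (DualNumber K[X])) = 0) : q = 0 := by
  have := congrArg (fun x => TrivSqZeroExt.fst (TrivSqZeroExt.fst x)) h
  simpa [jo, io, algebraMap_eq_inl] using this

/-- The second evaluation. -/
def r2 (v : ℕ → Bn K M) (n : ℕ) : Tri (DualNumber (DualNumber K[X])) :=
  Tri.mk (sg * jo (v n).2.2.1)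
    (ta * jo (C (v n).2.1) + sg * ta * jo (C (v n).2.2.2 * X ^ M)) (jo (C (v n).1 * X))

theorem words2 (v : ℕ → Bn K M) (w : FreeMagma ℕ) :
    (FreeMagma.lift (r2 v) w).2.2 = jo (C (FreeMagma.lift v w).1 * X) ∧
    (∃ e : K, (FreeMagma.lift (r2 v) w).1 =
      sg * jo ((FreeMagma.lift v w).2.2.1 - C e * X ^ (w.length - 1)) ∧
      (w.length = 1 → e = 0)) ∧
    (∃ n, (FreeMagma.lift (r2 v) w).2.1 = ta * n) ∧
    ((∃ i, w = FreeMagma.of i) ∨ (FreeMagma.lift v w).1 = 0 ∧ (FreeMagma.lift v w).2.1 = 0 ∧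
      ∃ n, (FreeMagma.lift (r2 v) w).2.1 = sg * ta * n) ∧
    (w.length ≤ M + 1 → cf M (FreeMagma.lift (r2 v) w).2.1 = (FreeMagma.lift v w).2.2.2) := by
  have hs : (sg : DualNumber (DualNumber K[X])) * sg = 0 := sg_sg
  have ht : (ta : DualNumber (DualNumber K[X])) * ta = 0 := ta_ta
  induction w using FreeMagma.recOnMul
  · rename_i i
    have h3 : (FreeMagma.lift (r2 v) (FreeMagma.of i)).2.1 =
        ta * (jo (C (v i).2.1) + sg * jo (C (v i).2.2.2 * X ^ M)) := by
      simp only [FreeMagma.lift_of, r2, Tri.mk_m]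
      ring
    have h5 : cf M (FreeMagma.lift (r2 v) (FreeMagma.of i)).2.1 = (v i).2.2.2 := by
      simp only [FreeMagma.lift_of, r2, Tri.mk_m, map_add, cf_apply, cf_apply', zero_add]
      simp
    refine ⟨by simp [r2], ⟨0, by simp [r2], fun _ => rfl⟩, ⟨_, h3⟩, Or.inl ⟨i, rfl⟩, fun _ => ?_⟩
    rw [h5, FreeMagma.lift_of]
  · rename_i x y hx hy
    obtain ⟨x1, ⟨e, x2, x2'⟩, ⟨n, x3⟩, x4, x5⟩ := hx
    obtain ⟨y1, ⟨e', y2, y2'⟩, ⟨n', y3⟩, y4, y5⟩ := hy
    have hlx : 1 ≤ x.length := FreeMagma.length_pos x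
    have hly : 1 ≤ y.length := FreeMagma.length_pos y
    have hlen : (x * y).length = x.length + y.length := rfl
    simp only [map_mul, Tri.mul_l, Tri.mul_m, Tri.mul_p, Bn.mul_a, Bn.mul_b, Bn.mul_c, Bn.mul_z]
    refine ⟨by simp, ?_, ?_, Or.inr ⟨trivial, trivial, ?_⟩, ?_⟩
    · rcases y4 with ⟨i, rfl⟩ | ⟨ya, yb, -⟩
      · refine ⟨e * (FreeMagma.lift v (FreeMagma.of i)).1 +
          (FreeMagma.lift v x).1 * (FreeMagma.lift v (FreeMagma.of i)).2.1, ?_, ?_⟩
        · rw [x2, y1, mul_assoc, ← map_mul]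
          congr 2
          have hl : (x * FreeMagma.of i).length - 1 = x.length := by
            rw [hlen]; rfl
          rw [hl]
          rcases x4 with ⟨j, rfl⟩ | ⟨xa, xb, -⟩
          · have : e = 0 := x2' rfl
            subst this
            have hl' : (FreeMagma.of j : FreeMagma ℕ).length = 1 := rfl
            rw [hl']
            simp
          · rw [xa]
            obtain ⟨k, hk⟩ : ∃ k, x.length = k + 1 := ⟨x.length - 1, by omega⟩
            rw [hk]
            simp only [Nat.add_sub_cancel, zero_mul, map_zero, zero_add, add_zero, map_mul]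
            ring
        · intro h
          rw [hlen] at h
          omega
      · refine ⟨0, ?_, fun _ => rfl⟩
        rw [y1, ya, yb]
        simp
    · exact ⟨((FreeMagma.lift (r2 v) x).1 + (FreeMagma.lift (r2 v) x).2.1) * n', by rw [y3]; ring⟩
    · refine ⟨jo ((FreeMagma.lift v x).2.2.1 - C e * X ^ (x.length - 1)) * n', ?_⟩
      rw [x2, x3, y3]
      exact aux3 (D := DualNumber (DualNumber K[X])) sg ta _ _ _ ht
    · intro hle
      rw [hlen] at hle
      rcases y4 with ⟨i, rfl⟩ | ⟨ya, yb, n'', yn⟩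
      · have hm : ((FreeMagma.lift (r2 v) x).1 + (FreeMagma.lift (r2 v) x).2.1) *
            (FreeMagma.lift (r2 v) (FreeMagma.of i)).2.1 =
            sg * ta * jo (((FreeMagma.lift v x).2.2.1 - C e * X ^ (x.length - 1)) *
              C (v i).2.1) := by
          rw [x2, x3]
          simp only [FreeMagma.lift_of, r2, Tri.mk_m]
          rw [map_mul jo (_ - _)]
          exact aux1 (D := DualNumber (DualNumber K[X])) sg ta _ _ _ _ hs ht
        rw [hm, cf_apply, coeff_mul_C, coeff_sub, coeff_C_mul, coeff_X_pow, FreeMagma.lift_of]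
        have h1 : (FreeMagma.of i : FreeMagma ℕ).length = 1 := rfl
        rw [h1] at hle
        rw [if_neg (by omega)]
        simp
      · have hm : ((FreeMagma.lift (r2 v) x).1 + (FreeMagma.lift (r2 v) x).2.1) *
            (FreeMagma.lift (r2 v) y).2.1 = 0 := by
          rw [x2, x3, yn]
          exact aux2 (D := DualNumber (DualNumber K[X])) sg ta _ _ _ hs ht
        rw [hm, map_zero, yb, mul_zero]

end second

/-! ### The algebra `B` satisfies the identities of small degree -/

section main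

variable {K : Type u} [Field K]

open DualNumber

theorem bn_identity [Infinite K] (M : ℕ) (f : FreeNonUnitalNonAssocAlgebra K ℕ)
    (hf : IsIdentity K (Tri K) f) (hd : ∀ w ∈ f.coeff.support, w.length ≤ M + 1) :
    IsIdentity K (Bn K M) f := by
  intro v
  have e1 : FreeNonUnitalNonAssocAlgebra.lift K (r1 v) f = 0 := identity_ext K _ f hf _
  have e2 : FreeNonUnitalNonAssocAlgebra.lift K (r2 v) f = 0 := identity_ext K _ f hf _
  -- the four linear comparisons
  let pl : Tri (DualNumber K[X]) →ₗ[K] DualNumber K[X] :=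
    { toFun := fun x => x.2.2, map_add' := fun _ _ => rfl, map_smul' := fun _ _ => rfl }
  let pA : Tri (DualNumber K[X]) →ₗ[K] DualNumber K[X] :=
    { toFun := fun x => x.1 + x.2.1, map_add' := fun x y => by simp; ring,
      map_smul' := fun k x => by simp }
  let ql : Tri (DualNumber (DualNumber K[X])) →ₗ[K] DualNumber (DualNumber K[X]) :=
    { toFun := fun x => x.2.2, map_add' := fun _ _ => rfl, map_smul' := fun _ _ => rfl }
  let qm' : Tri (DualNumber (DualNumber K[X])) →ₗ[K] DualNumber (DualNumber K[X]) :=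
    { toFun := fun x => x.2.1, map_add' := fun _ _ => rfl, map_smul' := fun _ _ => rfl }
  let qm : Tri (DualNumber (DualNumber K[X])) →ₗ[K] K := (cf M).comp qm'
  let bb : Bn K M →ₗ[K] DualNumber K[X] :=
    { toFun := fun x => ε * io (C x.2.1), map_add' := fun x y => by simp; ring,
      map_smul' := fun k x => by
        simp only [Bn.smul_b, RingHom.id_apply, map_mul]
        rw [← map_mul, ← smul_eq_C_mul, io_smul, mul_smul_comm] }
  let bc : Bn K M →ₗ[K] DualNumber K[X] :=
    { toFun := fun x => -(ε * io x.2.2.1), map_add' := fun x y => by simp; ring,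
      map_smul' := fun k x => by
        simp only [Bn.smul_c, RingHom.id_apply, io_smul, mul_smul_comm, smul_neg] }
  let ba : Bn K M →ₗ[K] DualNumber (DualNumber K[X]) :=
    { toFun := fun x => jo (C x.1 * X), map_add' := fun x y => by simp; ring,
      map_smul' := fun k x => by
        simp only [Bn.smul_a, RingHom.id_apply]
        rw [C_mul, mul_assoc, ← smul_eq_C_mul, jo_smul] }
  let bz : Bn K M →ₗ[K] K :=
    { toFun := fun x => x.2.2.2, map_add' := fun x y => by simp,
      map_smul' := fun k x => by simp }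
  have h1 := transfer (r1 v) v pl bb f fun w _ => (words1 v w).1
  have h2 := transfer (r1 v) v pA bc f fun w _ => (words1 v w).2.1
  have h3 := transfer (r2 v) v ql ba f fun w _ => (words2 v w).1
  have h4 := transfer (r2 v) v qm bz f fun w hw => (words2 v w).2.2.2.2 (hd w hw)
  rw [e1, map_zero] at h1 h2
  rw [e2, map_zero] at h3 h4
  have h1' : (ε : DualNumber K[X]) *
      io (C (FreeNonUnitalNonAssocAlgebra.lift K v f).2.1) = 0 := h1.symm
  have h2' : -((ε : DualNumber K[X]) *
      io (FreeNonUnitalNonAssocAlgebra.lift K v f).2.2.1) = 0 := h2.symm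
  have h3' : (jo (C (FreeNonUnitalNonAssocAlgebra.lift K v f).1 * X) :
      DualNumber (DualNumber K[X])) = 0 := h3.symm
  refine Bn.ext' ?_ ?_ ?_ ?_
  · have := jo_inj _ h3'
    simpa using this
  · have := eps_io _ h1'
    simpa using this
  · exact eps_io _ (neg_eq_zero.1 h2')
  · exact h4.symm

end main

end

end Pool.Agent.R650.ThreeDim
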